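import Pool.Agent.Helper76.RD.Goals3
import Pool.Agent.Helper13.RD.ORB
import Pool.Agent.Helper32.RD.VAL

/-!
# Project RD, packet RF-ORP: the `p` classes of uniformizers
-/

namespace Pool.Agent.Helper94.RD

open NumberField Polynomial Module IsDedekindDomain Pool.Agent.Helper51.RP Pool.Agent.Helper42.RD
open Pool.Agent.Helper76.RD
open Pool.Agent.Helper40.RS (bel absNorm_free lies)
open Pool.Agent.Helper13.RD (conj_refl conj_symm conj_trans)
open Pool.Agent.Helper32.RDV (exists_tame GG mem_GG_iff close_mem_GG ordv_mul ordv_pow ordv_zpow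
  ordv_eq_zero val_of_close val_one_of_close val_one_of_ordv mem_iff_val approx)

variable {K M : Type} [Field K] [NumberField K] [Field M] [NumberField M] [Algebra K M]
  [IsGalois K M]

/-- At a prime with trivial decomposition group every class contains an element of `𝓞 K`. -/
theorem res_surj (w : HeightOneSpectrum (𝓞 M)) (hf : FreeP K w) (r : 𝓞 M) :
    ∃ u : 𝓞 K, algebraMap (𝓞 K) (𝓞 M) u - r ∈ w.asIdeal := by
  have hle : (bel K w).asIdeal ≤ w.asIdeal.comap (algebraMap (𝓞 K) (𝓞 M)) := le_rfl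
  have hfK : Finite (𝓞 K ⧸ (bel K w).asIdeal) :=
    Ideal.finiteQuotientOfFreeOfNeBot _ (bel K w).ne_bot
  have hfM : Finite (𝓞 M ⧸ w.asIdeal) := Ideal.finiteQuotientOfFreeOfNeBot _ w.ne_bot
  have hcK : Nat.card (𝓞 K ⧸ (bel K w).asIdeal) = Ideal.absNorm (bel K w).asIdeal := rfl
  have hcM : Nat.card (𝓞 M ⧸ w.asIdeal) = Ideal.absNorm w.asIdeal := rfl
  have hinj : Function.Injective (Ideal.quotientMap w.asIdeal (algebraMap (𝓞 K) (𝓞 M)) hle) :=
    Ideal.quotientMap_injective
  have hb := hinj.bijective_of_nat_card_le (by rw [hcK, hcM, absNorm_free (K := K) w hf])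
  obtain ⟨u', hu'⟩ := hb.surjective (Ideal.Quotient.mk w.asIdeal r)
  obtain ⟨u, rfl⟩ := Ideal.Quotient.mk_surjective u'
  refine ⟨u, ?_⟩
  rw [← Ideal.Quotient.eq_zero_iff_mem, map_sub, sub_eq_zero, ← hu', Ideal.quotientMap_mk]

omit [IsGalois K M] [NumberField K] in
theorem ne_zero_of_ordv (w : HeightOneSpectrum (𝓞 M)) (x : K)
    (h : ordv w (algebraMap K M x) = 1) : algebraMap K M x ≠ 0 := by
  intro h0
  rw [h0] at h
  unfold ordv at h
  rw [map_zero] at h
  simp at h

theorem th_one {A : Type} [Group A] {p : ℕ} {θ : A → ZMod p} (h : ∀ x y, θ (x * y) = θ x + θ y) :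
    θ 1 = 0 := by
  have := h 1 1
  rw [mul_one] at this
  exact left_eq_add.1 this

theorem th_pow {A : Type} [Group A] {p : ℕ} {θ : A → ZMod p} (h : ∀ x y, θ (x * y) = θ x + θ y)
    (x : A) (n : ℕ) : θ (x ^ n) = (n : ZMod p) * θ x := by
  induction n with
  | zero => simp [th_one h]
  | succ n ih => rw [pow_succ, h, ih]; push_cast; ring

/-- A unit of `K` at `w` whose class is not a `p`-th power, and the tame symbol. -/
theorem exists_u (p : ℕ) [Fact p.Prime] (w : HeightOneSpectrum (𝓞 M)) (hf : FreeP K w) (π : K)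
    (hπ : ordv w (algebraMap K M π) = 1) (hN : p ∣ Ideal.absNorm w.asIdeal - 1) :
    ∃ (u : K) (θ : Mˣ → ZMod p), w.valuation M (algebraMap K M u) = 1 ∧
      (∀ x y, θ (x * y) = θ x + θ y) ∧
      (∀ x : Mˣ, LocPow p w (x : M) → θ x = 0) ∧
      ∀ x : Mˣ, (x : M) = algebraMap K M u → θ x = 1 := by
  have hα := ne_zero_of_ordv w π hπ
  obtain ⟨θ, hadd, hker, hsur⟩ := exists_tame p w (algebraMap K M π) hα hπ hN
  obtain ⟨x, hx⟩ := hsur 1
  have hcong : ∀ x y : Mˣ, x / y ∈ GG p w (algebraMap K M π) hα → θ x = θ y := by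
    intro x y h
    have h1 := (hker (x / y)).2 h
    have h2 := hadd (x / y) y
    rw [div_mul_cancel, h1, zero_add] at h2
    exact h2
  -- the element of valuation 0
  set e := ordv w (x : M) with he
  obtain ⟨α, hαd⟩ : ∃ α : Mˣ, (α : M) = algebraMap K M π := ⟨Units.mk0 _ hα, rfl⟩
  have hx0v : w.valuation M ((x * α ^ (-e) : Mˣ) : M) = 1 := by
    apply val_one_of_ordv w (Units.ne_zero _)
    rw [Units.val_mul, Units.val_zpow_eq_zpow_val, hαd,
      ordv_mul w x.ne_zero (zpow_ne_zero _ hα), ordv_zpow, hπ, ← he]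
    ring
  have h1 : θ (x * α ^ (-e)) = 1 := by
    rw [← hx]
    refine (hcong _ _ ?_).symm
    refine ⟨-e, 1, ?_⟩
    have : ((x / (x * α ^ (-e)) : Mˣ) : M) * algebraMap K M π ^ (-e) * 1 ^ p - 1 = 0 := by
      rw [Units.val_div_eq_div_val, Units.val_mul, Units.val_zpow_eq_zpow_val, hαd,
        one_pow, mul_one, div_mul_eq_mul_div, div_self, sub_self]
      exact mul_ne_zero x.ne_zero (zpow_ne_zero _ hα)
    rw [this, map_zero]
    exact zero_lt_one
  obtain ⟨r, hr⟩ := approx w hx0v.le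
  obtain ⟨u, hu⟩ := res_surj (K := K) w hf r
  rw [← mem_iff_val] at hu
  have hclose : w.valuation M (algebraMap K M (u : K) - ((x * α ^ (-e) : Mˣ) : M)) < 1 := by
    have e1 : algebraMap K M (u : K) - ((x * α ^ (-e) : Mˣ) : M) =
        ((algebraMap (𝓞 K) (𝓞 M) u - r : 𝓞 M) : M) +
          ((r : M) - ((x * α ^ (-e) : Mˣ) : M)) := by
      have e0 : ((algebraMap (𝓞 K) (𝓞 M) u - r : 𝓞 M) : M) =
          algebraMap K M (u : K) - (r : M) := map_sub (algebraMap (𝓞 M) M) _ _
      rw [e0]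
      ring
    rw [e1]
    exact (w.valuation M).map_add_lt hu hr
  have huv : w.valuation M (algebraMap K M (u : K)) = 1 := by
    rw [← hx0v]
    exact val_of_close w (by rwa [hx0v])
  refine ⟨u, θ, huv, hadd, ?_, ?_⟩
  · intro y hy
    rw [hker, mem_GG_iff]
    exact ⟨0, by simpa using hy⟩
  · intro y hy
    rw [← h1]
    apply hcong
    apply close_mem_GG
    have e2 : ((y / (x * α ^ (-e)) : Mˣ) : M) - 1 =
        (algebraMap K M (u : K) - ((x * α ^ (-e) : Mˣ) : M)) / ((x * α ^ (-e) : Mˣ) : M) := by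
      rw [Units.val_div_eq_div_val, hy, sub_div, div_self (Units.ne_zero _)]
    rw [e2, map_div₀, hx0v, div_one]
    exact hclose

/-- Goal D_ORP. -/
theorem d_orp (h1 : D_ORB) : D_ORP := by
  classical
  intro p hp K M _ _ _ _ _ _ R al hR 𝔮 hq hf hqp hqn
  obtain ⟨al', hD, hal⟩ := h1 p K M R al hR 𝔮 hq hf hqp hqn
  have hmem : 𝔮 ∈ R ∪ {w | ConjP K w 𝔮} := Or.inr (conj_refl 𝔮)
  have hπ := hD.unif 𝔮 hmem
  have hα := ne_zero_of_ordv 𝔮 (al' 𝔮) hπ
  obtain ⟨u, θ, huv, hadd, hloc, hθu⟩ := exists_u p 𝔮 hf (al' 𝔮) hπ hqn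
  have hu0 : algebraMap K M u ≠ 0 := by
    intro h0
    rw [h0, map_zero] at huv
    exact zero_ne_one huv
  refine ⟨fun t w => if w ∈ R then al w else al' 𝔮 * u ^ t, fun t => ⟨?_, fun w hw => if_pos hw⟩,
    ?_⟩
  · refine ⟨hD.fin, hD.stable, hD.free, hD.copr, hD.norm, ?_, ?_⟩
    · intro w hw
      by_cases hwR : w ∈ R
      · simp only [if_pos hwR]
        exact hR.unif w hwR
      · simp only [if_neg hwR]
        obtain ⟨g, hg⟩ := hw.resolve_left hwR
        have h2 : w.valuation M (algebraMap K M u) = 1 := by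
          rw [← huv, ← hg (algebraMap K M u), AlgEquiv.commutes]
        have h3 : ordv w (algebraMap K M (al' 𝔮)) = 1 := by
          rw [← hD.const 𝔮 hmem w ⟨g, hg⟩]
          exact hD.unif w hw
        rw [map_mul, map_pow, ordv_mul w (ne_zero_of_ordv w _ h3) (pow_ne_zero _ hu0), ordv_pow,
          ordv_eq_zero w h2, h3, mul_zero, add_zero]
    · intro w hw w' hw'
      by_cases hwR : w ∈ R
      · have hw'R : w' ∈ R := hR.stable w hwR w' hw'
        simp only [if_pos hwR, if_pos hw'R]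
        exact hR.const w hwR w' hw'
      · have hw'R : w' ∉ R := fun h => hwR (hR.stable w' h w (conj_symm hw'))
        simp only [if_neg hwR, if_neg hw'R]
  · intro s t hs ht hst hL
    simp only [if_neg hq] at hL
    set U : Mˣ := Units.mk0 _ hu0 with hU
    set A : Mˣ := Units.mk0 _ hα with hA
    have h2 := hloc (A * U ^ s * (A * U ^ t) ^ (p - 1)) (by
      rw [Units.val_mul, Units.val_mul, Units.val_pow_eq_pow_val, Units.val_pow_eq_pow_val,
        Units.val_mul, Units.val_pow_eq_pow_val, hU, hA, Units.val_mk0, Units.val_mk0]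
      rw [map_mul, map_mul, map_pow, map_pow] at hL
      exact hL)
    have h3 : θ U = 1 := hθu U rfl
    rw [hadd, hadd, th_pow hadd, th_pow hadd, hadd, th_pow hadd, h3] at h2
    have h4 : ((p - 1 : ℕ) : ZMod p) = -1 := by
      rw [Nat.cast_sub hp.out.one_le]
      simp
    rw [h4] at h2
    have h5 : (s : ZMod p) = (t : ZMod p) := by linear_combination h2
    rw [ZMod.natCast_eq_natCast_iff] at h5
    exact hst (Nat.ModEq.eq_of_lt_of_lt h5 hs ht)

end Pool.Agent.Helper94.RD
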